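import Pool.Agent.H40.Gen3

set_option autoImplicit false

namespace Pool.Agent.Results.MP_18cfb4_lc.Genuine

open Pool.Agent.H40.Gen

theorem result : ∃ M : Mod, Basic M ∧ Ind M 1 ∧ Bnd M 2 ∧ ¬ Ind M 2 ∧ ∃ J : Set M.N, IsCut M J ∧
    Dfn M 3 true J ∧ Dfn M 3 false J ∧ ¬ Dfn M 2 true J ∧ ¬ Dfn M 2 false J :=
  ⟨M, basic, ind1, bnd2, notInd, J, cut, def3 true, def3 false, not2 true, not2 false⟩

end Pool.Agent.Results.MP_18cfb4_lc.Genuine
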